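import Pool.Agent.Helper76.TC2.Goals

/-! Packet NR of project TC2: the tori of the geodesic example are close to the interval `[0, l]`. -/

set_option autoImplicit false

open Set Topology

namespace Pool.Agent.Helper14.TC2.NR

open Pool.Agent.Helper76.TC Pool.Agent.Helper76.TC2
open Pool.Agent.Helper50.CT (rv Cov Sh)

theorem t (me : S_ME) (qt : S_QT) : S_NR2 := by
  intro m A l e δ d hd hl he hδ hb
  obtain ⟨T, iM, iC, iN, π, hT⟩ := qt (m + 3) A d hd
  obtain ⟨me1, me2, me3, me4⟩ := me m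
  have hd0 : ∀ x y : Fin (m + 3) → ℝ, 0 ≤ d x y := by
    intro x y
    have h1 : 0 ≤ l * |uu m x - uu m y| := by positivity
    exact h1.trans (hb x y).1
  have hlow : ∀ x y : Fin (m + 3) → ℝ, l * |uu m x - uu m y| ≤ dist (π x) (π y) := by
    intro x y
    rw [hT.quot]
    refine le_ciInf fun k => ?_
    have h1 := (hb x (rv k + y)).1
    rwa [me3 k y] at h1
  have hup : ∀ x y : Fin (m + 3) → ℝ, dist (π x) (π y) ≤ e + l * |uu m x - uu m y| := by
    intro x y
    rw [hT.quot]
    have hbd : BddBelow (Set.range fun k : Fin (m + 3) → ℤ => d x (rv k + y)) := by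
      refine ⟨0, ?_⟩
      rintro _ ⟨k, rfl⟩
      exact hd0 _ _
    refine (ciInf_le hbd (fun i => round (x i - y i))).trans ?_
    have h0 := (hb x (rv (fun i => round (x i - y i)) + y)).2
    rw [me3] at h0
    have h1 : ‖x - (rv (fun i => round (x i - y i)) + y)‖ ≤ 1 := by
      rw [pi_norm_le_iff_of_nonneg zero_le_one]
      intro i
      have h2 := abs_sub_round (x i - y i)
      simp only [Pi.sub_apply, Pi.add_apply, rv, Real.norm_eq_abs]
      have h3 : x i - ((round (x i - y i) : ℝ) + y i) = x i - y i - round (x i - y i) := by ring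
      rw [h3]
      linarith
    have h4 : e * ‖x - (rv (fun i => round (x i - y i)) + y)‖ ≤ e * 1 :=
      mul_le_mul_of_nonneg_left h1 he.le
    linarith
  let r : T → (Fin (m + 3) → ℝ) := Function.surjInv hT.surj
  have hr : ∀ s, π (r s) = s := Function.surjInv_eq hT.surj
  have iN' : Nonempty (Icc (0 : ℝ) l) := ⟨⟨0, by simp [hl.le]⟩⟩
  let Φ : ↥(Set.univ : Set T) → Icc (0 : ℝ) l := fun s => ⟨l * uu m (r s.1),
    mul_nonneg hl.le (me1 (r s.1)).1, mul_le_of_le_one_right hl.le (me1 (r s.1)).2⟩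
  refine ⟨T, iM, iC, iN, iN', π, hT, ?_⟩
  have habs : ∀ a b : ℝ, |l * a - l * b| = l * |a - b| := by
    intro a b
    rw [← mul_sub, abs_mul, abs_of_pos hl]
  have key : GromovHausdorff.ghDist T (Icc (0 : ℝ) l) ≤ 0 + e / 2 + 0 := by
    refine GromovHausdorff.ghDist_le_of_approx_subsets (s := (Set.univ : Set T)) Φ ?_ ?_ ?_
    · intro x
      exact ⟨x, Set.mem_univ _, by simp⟩
    · rintro ⟨s, hs0, hs1⟩
      obtain ⟨x, hx⟩ := me4 (s / l) (div_nonneg hs0 hl.le) (div_le_one_of_le₀ hs1 hl.le)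
      refine ⟨⟨π x, Set.mem_univ _⟩, ?_⟩
      have h5 := hlow x (r (π x))
      rw [hr, dist_self, ← habs] at h5
      have h6 : l * uu m x - l * uu m (r (π x)) = 0 :=
        abs_eq_zero.1 (le_antisymm h5 (abs_nonneg _))
      rw [Subtype.dist_eq, Real.dist_eq]
      have h8 : l * uu m x = s := by
        rw [hx]
        field_simp
      have h7 : s - l * uu m (r (π x)) = 0 := by linarith
      change |s - l * uu m (r (π x))| ≤ 0
      rw [h7]; simp
    · rintro ⟨x, hx⟩ ⟨y, hy⟩
      have h5 := hlow (r x) (r y)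
      have h6 := hup (r x) (r y)
      rw [hr, hr, ← habs] at h5 h6
      rw [Subtype.dist_eq (⟨x, hx⟩ : (Set.univ : Set T)), Subtype.dist_eq (Φ ⟨x, hx⟩), Real.dist_eq]
      change abs (dist x y - abs (l * uu m (r x) - l * uu m (r y))) ≤ e
      rw [abs_le]
      constructor <;> linarith
  linarith

end Pool.Agent.Helper14.TC2.NR
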